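import Pool.Agent.L7h86.LP.Stm

/-!
# The other longest path misses the component
-/

set_option autoImplicit false

namespace Pool.Agent.L7h87.LP

open Finset Classical
open Pool.Agent.K7.H44.LP

universe u

theorem s_F0 : Pool.Agent.L7h86.LP.S_F0.{u} := by
  intro V _ G Q P x0 i hQ hP hx0 hi haP hmeet
  have SQ := theSys hQ x0 (G := G)
  obtain ⟨hiL, c0, hc0, hc0a⟩ := Sys.mem_I.1 hi
  generalize hC : comp G Q x0 = C at *
  have hCconn : ∀ U : Set V, U ⊆ C → U.Nonempty →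
      (∀ u ∈ U, ∀ v ∈ C, G.Adj u v → v ∈ U) → U = C := SQ.conn
  have hnotNC : ∀ k, k < Q.length → k ∉ Sys.I G Q.length (fun i => Q.getD i x0) C →
      Q.getD k x0 ∉ NC G C := by
    rw [← hC]
    intro k hk hI
    exact notNC hk hI
  set q : ℕ → V := fun i => Q.getD i x0 with hq
  set a : V := Q.getD i x0 with ha
  set C' := comp G P a with hC'
  have haC' : a ∈ C' := self_comp haP
  have hC'cl : ∀ c ∈ C', ∀ v, G.Adj c v → v ∉ P → v ∈ C' := fun c hc v h hv => comp_closed hc h hv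
  have hNa : ∀ v, G.Adj a v → v ∈ NC G C' := by
    intro v hv
    exact Or.inr ⟨a, haC', hv⟩
  have hisL := SQ.succ_lt hi
  have hisI := SQ.succ_not hi
  have hsub : C ⊆ C' := by
    have := hCconn (C ∩ C') Set.inter_subset_left
      ⟨c0, hc0, hC'cl a haC' c0 hc0a.symm (hmeet c0 hc0)⟩
      (fun u hu v hv huv => ⟨hv, hC'cl u hu.2 v huv (hmeet v hv)⟩)
    rw [← this]
    exact Set.inter_subset_right
  refine ⟨fun n h => phi_sub hsub (comp_link a) hc0 h, card_lt_card ⟨?_, ?_⟩⟩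
  · intro v hv
    rw [mem_filter] at hv ⊢
    refine ⟨mem_univ _, ?_⟩
    rcases hv.2 with h | ⟨c, hc, h⟩
    · exact Or.inl (hsub h)
    · exact Or.inr ⟨c, hsub hc, h⟩
  · intro hcon
    have h3 : q (i + 1) ∈ univ.filter fun v => v ∈ NC G C' :=
      mem_filter.2 ⟨mem_univ _, hNa _ (SQ.adj i hisL)⟩
    exact hnotNC (i + 1) hisL hisI (mem_filter.1 (hcon h3)).2

end Pool.Agent.L7h87.LP
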