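import Pool.Agent.L7h86.LP.Stm

/-!
# The attachment has a neighbour and a non-neighbour in the component
-/

set_option autoImplicit false

namespace Pool.Agent.L7h87.LP

open Finset Classical
open Pool.Agent.K7.H44.LP

universe u

theorem s_MIX : Pool.Agent.L7h86.LP.S_MIX.{u} := by
  intro V _ G Q P x0 i h5 hQ hP hx0 hi haP hB h0 hmix hmeet
  have hlen := fun (n j : ℕ) hj => phi_len hQ (x0 := x0) (j := j) (n := n) hj
  have SQ := theSys hQ x0 (G := G)
  have SP := theSys hP (Q.getD i x0) (G := G)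
  obtain ⟨hiL, c0, hc0, hc0a⟩ := Sys.mem_I.1 hi
  generalize hC : comp G Q x0 = C at *
  have hCQ : ∀ c ∈ C, c ∉ Q := by rw [← hC]; exact comp_not
  have hCcl : ∀ c ∈ C, ∀ v, G.Adj c v → v ∉ Q → v ∈ C := by
    rw [← hC]
    intro c hc v h hv
    exact comp_closed hc h hv
  have hCconn : ∀ U : Set V, U ⊆ C → U.Nonempty →
      (∀ u ∈ U, ∀ v ∈ C, G.Adj u v → v ∈ U) → U = C := SQ.conn
  have hatt : ∀ v, v ∉ C → ∀ c ∈ C, G.Adj c v →
      ∃ j ∈ Sys.I G Q.length (fun i => Q.getD i x0) C, Q.getD j x0 = v := by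
    rw [← hC]
    intro v hv c hc h
    exact att hv hc h
  have hnotNC : ∀ k, k < Q.length → k ∉ Sys.I G Q.length (fun i => Q.getD i x0) C →
      Q.getD k x0 ∉ NC G C := by
    rw [← hC]
    intro k hk hI
    exact notNC hk hI
  set q : ℕ → V := fun i => Q.getD i x0 with hq
  set a : V := Q.getD i x0 with ha
  have hqi : q i = a := rfl
  set p : ℕ → V := fun k => P.getD k a with hp
  set C' := comp G P a with hC'
  have haC' : a ∈ C' := self_comp haP
  have hC'cl : ∀ c ∈ C', ∀ v, G.Adj c v → v ∉ P → v ∈ C' := fun c hc v h hv => comp_closed hc h hv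
  have hNa : ∀ v, G.Adj a v → v ∈ NC G C' := by
    intro v hv
    exact Or.inr ⟨a, haC', hv⟩
  obtain ⟨mu, hmu, mv, hmv, hmuv, hamu, hamv⟩ : ∃ u ∈ C, ∃ v ∈ C, G.Adj u v ∧ G.Adj a u ∧
      ¬ G.Adj a v := by
    by_contra hcon
    push Not at hcon
    have := hCconn {c | c ∈ C ∧ G.Adj a c} (fun c h => h.1) ⟨c0, hc0, hc0a.symm⟩
      (fun u hu v hv huv => ⟨hv, hcon u hu.1 v hv huv hu.2⟩)
    obtain ⟨c, hc, hac⟩ := hmix
    have h3 : c ∈ {c | c ∈ C ∧ G.Adj a c} := by rw [this]; exact hc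
    exact hac h3.2
  have hclD : ∀ v v', v ∉ NC G C → v' ∉ NC G C → G.Adj a v → G.Adj v v' → G.Adj a v' := by
    intro v v' hv hv' hav hvv
    by_contra h
    exact h5 mv mu a v v' hmuv.symm hamu.symm hav hvv (fun h => hamv h.symm)
      (fun h => hv (Or.inr ⟨mv, hmv, h⟩)) (fun h => hv' (Or.inr ⟨mv, hmv, h⟩))
      (fun h => hv (Or.inr ⟨mu, hmu, h⟩)) (fun h => hv' (Or.inr ⟨mu, hmu, h⟩)) h
  have hD : ∀ z ∈ P, G.Adj a z → z ∈ NC G C := by
    by_contra hcon
    push Not at hcon
    obtain ⟨z0, hz0P, hz0a, hz0N⟩ := hcon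
    set Z := (range P.length).filter fun k => G.Adj a (p k) ∧ p k ∉ NC G C with hZ
    have hmemZ : ∀ z ∈ P, G.Adj a z → z ∉ NC G C → ∃ k ∈ Z, p k = z := by
      intro z h3 h4 h6
      obtain ⟨k, hk, rfl⟩ := idx a h3
      exact ⟨k, by rw [hZ, mem_filter, mem_range]; exact ⟨hk, h4, h6⟩, rfl⟩
    obtain ⟨k0, hk0, -⟩ := hmemZ z0 hz0P hz0a hz0N
    have hZI : ∀ k ∈ Z, k ∈ Sys.I G P.length p C' := by
      intro k hk
      rw [hZ, mem_filter, mem_range] at hk
      exact Sys.mem_I.2 ⟨hk.1, a, haC', hk.2.1⟩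
    have hj : ∀ k, ∃ j, k ∈ Z → j ∈ Sys.I G Q.length q C ∧ q j = p (k + 1) := by
      intro k
      by_cases hk : k ∈ Z
      · have hkI := hZI k hk
        have hks := SP.succ_lt hkI
        have hksI := SP.succ_not hkI
        rw [hZ, mem_filter, mem_range] at hk
        have hadj : G.Adj (p k) (p (k + 1)) := SP.adj k hks
        have hna : ¬ G.Adj a (p (k + 1)) := SP.notC hks hksI haC'
        have hnC : p (k + 1) ∉ C := fun h => hk.2.2 (Or.inr ⟨_, h, hadj.symm⟩)
        by_cases hN : p (k + 1) ∈ NC G C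
        · rcases hN with h | ⟨c, hc, h⟩
          · exact absurd h hnC
          · obtain ⟨j, hj, hj'⟩ := hatt _ hnC c hc h
            exact ⟨j, fun _ => ⟨hj, hj'⟩⟩
        · exact absurd (hclD _ _ hk.2.2 hN hk.2.1 hadj) hna
      · exact ⟨0, fun h => absurd h hk⟩
    choose jj hjj using hj
    have hnb : ∀ k ∈ Z, q (jj k + 1) ∈ Z.image p ∧ q (jj k - 1) ∈ Z.image p := by
      intro k hk
      obtain ⟨e1, e2⟩ := hjj k hk
      have hkI := hZI k hk
      have hks := SP.succ_lt hkI
      have hksI := SP.succ_not hkI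
      have hna : ¬ G.Adj a (q (jj k)) := by
        rw [e2]
        exact SP.notC hks hksI haC'
      obtain ⟨b1, b2⟩ := hB _ e1 hna
      have hjs := SQ.succ_lt e1
      have hjp := SQ.pos e1
      have hjI := SQ.succ_not e1
      have hjI' := SQ.pred_not e1
      have hadj1 : G.Adj (q (jj k)) (q (jj k + 1)) := SQ.adj _ hjs
      have hadj2 : G.Adj (q (jj k - 1)) (q (jj k)) := by
        have := SQ.adj (jj k - 1) (by omega)
        rwa [show jj k - 1 + 1 = jj k by omega] at this
      have key : ∀ z, G.Adj a z → G.Adj z (q (jj k)) → z ∉ NC G C → z ∈ Z.image p := by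
        intro z hz1 hz2 hz3
        have hzP : z ∈ P := by
          by_contra hzP
          exact hksI (Sys.mem_I.2 ⟨hks, z, hC'cl a haC' z hz1 hzP, by rw [← e2]; exact hz2⟩)
        obtain ⟨k', hk', hk''⟩ := hmemZ z hzP hz1 hz3
        exact mem_image.2 ⟨k', hk', hk''⟩
      exact ⟨key _ b1 hadj1.symm (hnotNC _ hjs hjI),
        key _ b2 hadj2 (hnotNC _ (by omega) hjI')⟩
    set J := Z.image jj with hJ
    have hcJ : J.card = Z.card := by
      refine card_image_of_injOn ?_
      intro k hk k' hk' h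
      have e1 := (hjj k hk).2
      have e2 := (hjj k' hk').2
      have hks := SP.succ_lt (hZI k hk)
      have hks' := SP.succ_lt (hZI k' hk')
      rw [h, e2] at e1
      have := SP.inj _ hks' _ hks e1
      omega
    have hcW : (Z.image p).card = Z.card := by
      refine card_image_of_injOn ?_
      intro k hk k' hk' h
      exact SP.inj _ (Sys.mem_I.1 (hZI k hk)).1 _ (Sys.mem_I.1 (hZI k' hk')).1 h
    have hJI : ∀ j ∈ J, j ∈ Sys.I G Q.length q C := by
      intro j hj
      obtain ⟨k, hk, rfl⟩ := mem_image.1 hj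
      exact (hjj k hk).1
    have himg : J.image (fun j => q (j + 1)) = Z.image p := by
      refine eq_of_subset_of_card_le ?_ ?_
      · intro v hv
        obtain ⟨j, hj, rfl⟩ := mem_image.1 hv
        obtain ⟨k, hk, rfl⟩ := mem_image.1 hj
        exact (hnb k hk).1
      · have e : (J.image (fun j => q (j + 1))).card = J.card := by
          refine card_image_of_injOn ?_
          intro j hj j' hj' h
          have := SQ.inj _ (SQ.succ_lt (hJI j hj)) _ (SQ.succ_lt (hJI j' hj')) h
          omega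
        rw [e, hcJ, hcW]
    have hJne : J.Nonempty := ⟨jj k0, mem_image_of_mem _ hk0⟩
    have hj1 := min'_mem J hJne
    have h3 : q (J.min' hJne - 1) ∈ J.image (fun j => q (j + 1)) := by
      rw [himg]
      obtain ⟨k, hk, hk'⟩ := mem_image.1 hj1
      rw [← hk']
      exact (hnb k hk).2
    obtain ⟨j, hj, hj'⟩ := mem_image.1 h3
    have hjs := SQ.succ_lt (hJI j hj)
    have h4 := SQ.pos (hJI _ hj1)
    have h6 := (Sys.mem_I.1 (hJI _ hj1)).1
    have h7 := SQ.inj _ hjs _ (by omega) hj'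
    have h8 := min'_le J j hj
    omega
  -- 3b
  have hIne : (Sys.I G Q.length q C).Nonempty := ⟨i, hi⟩
  have hj1 := min'_mem (Sys.I G Q.length q C) hIne
  set j1 := (Sys.I G Q.length q C).min' hIne with hj1'
  have hj1L := (Sys.mem_I.1 hj1).1
  have h0I : (0 : ℕ) ∉ Sys.I G Q.length q C := fun h => by
    have := SQ.pos h
    omega
  have hsp : Q.take j1 ++ Q.drop j1 = Q := List.take_append_drop j1 Q
  have hch := hQ.1
  rw [← hsp, List.isChain_append] at hch
  have htl : (Q.take j1).length = j1 := by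
    rw [List.length_take]
    omega
  have hadj : ∀ v ∈ Q.take j1, G.Adj a v ∧ v ∉ NC G C := by
    intro v hv
    obtain ⟨m, hm, hm'⟩ := List.getElem_of_mem hv
    rw [htl] at hm
    have hmL : m < Q.length := by omega
    have hv' : q m = v := by
      rw [← hm', List.getElem_take]
      exact List.getD_eq_getElem _ _ hmL
    have hmc : m ∈ Sys.cell G Q.length q C 0 := by
      refine Sys.mem_cell.2 ⟨hmL, fun i hi hc => ?_⟩
      have : j1 ≤ i := min'_le _ _ hi
      omega
    rw [← hv']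
    exact ⟨h0 m hmc,
      hnotNC m hmL (Sys.not_I_of_cell hmc)⟩
  refine ⟨j1, fun n h => hlen n j1 hj1 h, ?_, ?_⟩
  · have := phi_fin (comp_link (G := G) (l := P) a) haC' (D := Q.take j1) hch.1
      (hQ.2.1.sublist (List.take_sublist j1 Q))
      (fun v hv => hC'cl a haC' v (hadj v hv).1 fun hvP => (hadj v hv).2 (hD v hvP (hadj v hv).1))
      (fun v hv => (hadj v hv).1)
    rwa [htl] at this
  · have := hQ.2.1.length_le_card
    omega

end Pool.Agent.L7h87.LP
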