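import Pool.Agent.L7h86.LP.Stm

/-!
# The component is a single vertex
-/

set_option autoImplicit false

namespace Pool.Agent.L7h87.LP

open Finset Classical
open Pool.Agent.K7.H44.LP

universe u

theorem s_ONE : Pool.Agent.L7h86.LP.S_ONE.{u} := by
  intro V _ G Q P x0 i h5 hQ hP hx0 hi h1 haP hno
  have SQ := theSys hQ x0 (G := G)
  obtain ⟨hiL, c0, hc0, hc0a⟩ := Sys.mem_I.1 hi
  generalize hC : comp G Q x0 = C at *
  have hCQ : ∀ c ∈ C, c ∉ Q := by rw [← hC]; exact comp_not
  have hCconn : ∀ U : Set V, U ⊆ C → U.Nonempty →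
      (∀ u ∈ U, ∀ v ∈ C, G.Adj u v → v ∈ U) → U = C := SQ.conn
  have hatt : ∀ v, v ∉ C → ∀ c ∈ C, G.Adj c v →
      ∃ j ∈ Sys.I G Q.length (fun i => Q.getD i x0) C, Q.getD j x0 = v := by
    rw [← hC]
    intro v hv c hc h
    exact att hv hc h
  set q : ℕ → V := fun i => Q.getD i x0 with hq
  set a : V := Q.getD i x0 with ha
  set C' := comp G P a with hC'
  have haC' : a ∈ C' := self_comp haP
  have hNa : ∀ v, G.Adj a v → v ∈ NC G C' := by
    intro v hv
    exact Or.inr ⟨a, haC', hv⟩
  have haQ : a ∈ Q := getD_mem x0 hiL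
  have hcom : ∀ c ∈ C, G.Adj a c := by
    have := hCconn {c | c ∈ C ∧ G.Adj a c} (fun c h => h.1) ⟨c0, hc0, hc0a.symm⟩
      (fun u hu v hv huv => absurd huv (hno u hu.1 v hv))
    intro c hc
    have h3 : c ∈ {c | c ∈ C ∧ G.Adj a c} := by rw [this]; exact hc
    exact h3.2
  have hnc : nc G C < nc G C' := by
    set A1 := univ.filter fun v => v ∈ C with hA1
    set A2 := ((range Q.length).filter fun k => G.Adj a (q k)).image q with hA2
    have hinj : Set.InjOn q (((range Q.length).filter fun k => G.Adj a (q k) : Finset ℕ) : Set ℕ) := by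
      intro k hk k' hk' h
      exact SQ.inj k (mem_range.1 (mem_filter.1 (mem_coe.1 hk)).1) k'
        (mem_range.1 (mem_filter.1 (mem_coe.1 hk')).1) h
    have e2 : A2.card = Sys.num G Q.length q a := by
      rw [hA2, card_image_of_injOn hinj]
      rfl
    have e3 : (insert a (A1 ∪ A2)).card = A1.card + A2.card + 1 := by
      rw [card_insert_of_notMem, card_union_of_disjoint]
      · rw [disjoint_left]
        intro v hv1 hv2
        rw [hA1, mem_filter] at hv1
        rw [hA2, mem_image] at hv2
        obtain ⟨k, hk, rfl⟩ := hv2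
        exact hCQ _ hv1.2 (getD_mem x0 (mem_range.1 (mem_filter.1 hk).1))
      · rw [mem_union, not_or]
        constructor
        · intro h
          exact hCQ a (mem_filter.1 h).2 haQ
        · intro h
          rw [hA2, mem_image] at h
          obtain ⟨k, hk, hk'⟩ := h
          have := (mem_filter.1 hk).2
          rw [hk'] at this
          exact G.loopless.irrefl _ this
    have e4 : (insert a (A1 ∪ A2)).card ≤ nc G C' := by
      refine card_le_card ?_
      intro v hv
      rw [mem_filter]
      refine ⟨mem_univ _, ?_⟩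
      rw [mem_insert, mem_union] at hv
      rcases hv with rfl | hv | hv
      · exact Or.inl haC'
      · exact hNa v (hcom v (mem_filter.1 hv).2)
      · rw [hA2, mem_image] at hv
        obtain ⟨k, hk, rfl⟩ := hv
        exact hNa _ (mem_filter.1 hk).2
    have e5 : nc G C ≤ A1.card + (Sys.I G Q.length q C).card := by
      have : (univ.filter fun v => v ∈ NC G C) ⊆ A1 ∪ (Sys.I G Q.length q C).image q := by
        intro v hv
        rw [mem_filter] at hv
        rw [mem_union]
        by_cases hvC : v ∈ C
        · exact Or.inl (mem_filter.2 ⟨mem_univ _, hvC⟩)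
        · right
          rcases hv.2 with h | ⟨c, hc, h⟩
          · exact absurd h hvC
          · obtain ⟨j, hj, rfl⟩ := hatt v hvC c hc h
            exact mem_image.2 ⟨j, hj, rfl⟩
      exact (card_le_card this).trans ((card_union_le _ _).trans
        (Nat.add_le_add_left card_image_le _))
    have h1' : (Sys.I G Q.length q C).card + 1 ≤ Sys.num G Q.length q a := h1
    omega
  refine ⟨fun n h => phi_one ?_, hnc⟩
  obtain ⟨R, r1, r2, r3, r4, r5⟩ := h a (fun h => hCQ a h haQ) c0 hc0 hc0a
  by_contra hn
  match R, r1, r3, r4 with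
  | [], _, _, r4 => simp at r4; omega
  | [_], _, _, r4 => simp at r4; omega
  | x :: y :: R, r1, r3, _ =>
    rw [List.isChain_cons_cons] at r1
    exact hno x (r3 x (by simp)) y (r3 y (by simp)) r1.1

end Pool.Agent.L7h87.LP
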